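import Pool.Agent.FC640.MK.Fin3

set_option autoImplicit false

open Pool.Agent.W689.Mk Pool.Agent.FC640.MK MeasureTheory Set
open scoped ENNReal

namespace Pool.Agent.FC640.Extra.UniformPositionLaw

/-- A closed affine manifold with parallel volume, given by a cover `X` with its group `Γ`,
developing map `dev` and holonomy `hol`; `μ` is the measure on `X` given by the volume, `m` is a
finite measure on directions invariant under the projectivised linear holonomy, and `G` is a
weight, so that the integral of `G F` is the integral of the invariant function `F` over the closed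
manifold.

First part: on the geodesics which are incomplete in both directions the relative position of the
initial point is uniformly distributed in the unit interval.

Second part: if the lifetimes of the incomplete rays, measured with an invariant metric `N` at the
initial point, are integrable, then almost every geodesic is complete. -/
theorem result (E X Γ : Type) [NormedAddCommGroup E] [NormedSpace ℝ E] [FiniteDimensional ℝ E]
    [MeasurableSpace E] [BorelSpace E] (lam : Measure E) [lam.IsAddHaarMeasure]
    [TopologicalSpace X] [T2Space X] [SecondCountableTopology X] [Nonempty X]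
    [MeasurableSpace X] [BorelSpace X]
    [Group Γ] [MulAction Γ X] (dev : X → E) (hol : Γ →* (E ≃ᵃ[ℝ] E))
    (D : AffData X Γ E dev hol) (μ : Measure X) (hμ : ChartMeas dev lam μ)
    (m : Measure E) [IsFiniteMeasure m]
    (hm : ∀ γ : Γ, m.map (fun u => (‖u‖ / ‖(hol γ).linear u‖) • (hol γ).linear u) = m)
    (G : X → ℝ≥0∞) (hG : Measurable G) (hG1 : ∀ x, ∑' γ : Γ, G (γ • x) = 1) :
    (∀ B : Set ℝ, MeasurableSet B →
      ∫⁻ u, ∫⁻ x, G x * {p | p ∈ TwoSided dev ∧ position dev p ∈ B}.indicator 1 (x, u) ∂μ ∂m =
        volume (B ∩ Ioo (0 : ℝ) 1) *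
          ∫⁻ u, ∫⁻ x, G x * (TwoSided dev).indicator 1 (x, u) ∂μ ∂m) ∧
    (∀ N : X → E → ℝ, InvMetric dev hol N →
      ∫⁻ u, ∫⁻ x, G x * {p : X × E | life dev p.1 p.2 < ⊤}.indicator
        (fun p => life dev p.1 p.2 * ENNReal.ofReal (N p.1 p.2)) (x, u) ∂μ ∂m < ⊤ →
      ∀ᵐ u ∂m, ∀ᵐ x ∂μ, ∀ t : ℝ, Geod dev x (t • u)) :=
  ⟨fun _ hB => law_fin lam D hμ hm hG hG1 hB,
    fun _ hN hfin => complete_fin lam D hμ hm hG hG1 hN hfin.ne⟩

end Pool.Agent.FC640.Extra.UniformPositionLaw
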